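import Pool.Agent.TH272.Nec.CliqueRes

set_option autoImplicit false

/-!
# The clique problem: circuits with few shared gates

The function decides whether a graph with `n` vertices has a clique with more than `√n` vertices
(this is the function of the problem), or with `s` vertices, where `4 log₂ n ≤ s ≤ n / 2`.

A circuit over the full binary basis is written as a sequence of formulas, one for each gate whose
value is used more than once (a shared gate) and one for the output; a leaf of a formula reads the
input or refers to an earlier shared gate. The circuits are random and have error probability at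
most `1 / 3` on every graph.

* Either the expected number of shared gates and of references to them is at least `n ^ 2 / 25600`,
  that is, linear in the length of the input, or the expected number of leaves is at least
  `n ^ 4 / (10 ^ 6 log₂ n)`, that is, nearly quadratic in the length of the input.
* The same dichotomy if the pairs of vertices are divided into blocks in any way and the leaves are
  arbitrary predicates of a block: the second bound is then `n ^ 2 / 25600` for each block which is
  a matching with at least `4 log₂ n` edges.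
* Formulas over the full binary basis have at least `n ^ 4 / (10 ^ 6 log₂ n)` leaves.
-/

namespace Pool.Agent.Results.MP_0a1b52_lc.FanoutThreshold

open Pool.Agent.TH272.Nec

theorem result (n : ℕ) (hn : 2 ^ 11 ≤ n) (P : SimpleGraph (Fin n) → Prop)
    (hP : (∀ G, P G ↔
        ∃ K : Finset (Fin n), G.IsClique (K : Set (Fin n)) ∧ Real.sqrt n < K.card) ∨
      ∃ s : ℕ, 4 * Nat.log 2 n ≤ s ∧ 2 * s ≤ n ∧
        ∀ G, P G ↔ ∃ K : Finset (Fin n), G.IsClique (K : Set (Fin n)) ∧ K.card = s) :
    (∀ (Ω : Type) [Fintype Ω] (μ : Ω → ℝ) (C : Ω → Circuit (Sym2 (Fin n)) (fun _ => Bool)),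
      Computes μ C (fun x => P (SimpleGraph.fromEdgeSet {e | x e = true})) →
        (n : ℝ) ^ 2 / 25600 ≤ mean μ (fun ω => (C ω).refs) + mean μ (fun ω => (C ω).shared) ∨
        (n : ℝ) ^ 4 / (10 ^ 6 * Nat.log 2 n) ≤ mean μ (fun ω => (C ω).leaves)) ∧
    (∀ (κ : Type) [DecidableEq κ] (block : Sym2 (Fin n) → κ) (B : Finset κ),
      (∀ i ∈ B, IsMatchingBlock block (4 * Nat.log 2 n) i) →
      ∀ (Ω : Type) [Fintype Ω] (μ : Ω → ℝ) (C : Ω → Circuit κ (Item block)),
      Computes μ C (fun x => P (graph block x)) →
        (n : ℝ) ^ 2 / 25600 ≤ mean μ (fun ω => (C ω).refs) + mean μ (fun ω => (C ω).shared) ∨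
        (n : ℝ) ^ 2 / 25600 * B.card ≤ mean μ (fun ω => (C ω).leaves)) ∧
    (∀ F : Fm (Sym2 (Fin n)) (fun _ => Bool) 0,
      (∀ x, F.eval x Fin.elim0 = true ↔ P (SimpleGraph.fromEdgeSet {e | x e = true})) →
        (n : ℝ) ^ 4 / (10 ^ 6 * Nat.log 2 n) ≤ F.leaves) := by
  obtain ⟨s, h1, h2, h3⟩ : ∃ s : ℕ, 4 * Nat.log 2 n ≤ s ∧ 2 * s ≤ n ∧
      ∀ G, P G ↔ ¬ G.CliqueFree s := by
    rcases hP with h | ⟨s, h1, h2, h3⟩
    · exact ⟨Nat.sqrt n + 1, (Clq.sqrt_bounds hn).1, (Clq.sqrt_bounds hn).2,
        fun G => (h G).trans (Clq.big_iff G)⟩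
    · exact ⟨s, h1, h2, fun G => (h3 G).trans (Clq.not_cliqueFree_iff G).symm⟩
  obtain rfl : P = fun G => ¬ G.CliqueFree s := funext fun G => propext (h3 G)
  refine ⟨fun Ω _ μ C hC => Clq.single hn h1 h2 μ C hC, fun κ _ block B hB Ω _ μ C hC =>
    Clq.blocks hn h1 h2 block B hB μ C hC, fun F hF => Clq.formula hn h1 h2 F hF⟩

end Pool.Agent.Results.MP_0a1b52_lc.FanoutThreshold
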