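import Pool.Agent.TH272.Nec.Isa

set_option autoImplicit false

/-!
# A threshold for the sharing of gates: from nearly quadratic to linear size

Indirect storage access `isa` on `N` bits (`q` address bits, `2 ^ q` blocks of `ℓ` bits, a table
with `2 ^ ℓ` cells; the address selects a block, and the block selects the cell that is the value).

A circuit over the full binary basis is written as a sequence of formulas, one for each gate whose
value is used more than once (a shared gate) and one for the output; a leaf of a formula reads a bit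
of the input or refers to an earlier shared gate.

* Without sharing the size is `Θ (N ^ 2 / log N)`. If the number of shared gates and of references
  to them is less than `N / 360`, then there are still at least `N ^ 2 / (2160 log₂ N)` leaves. This
  holds also for random circuits with error probability at most `1 / 3` and for expected values.
* With `ℓ ≤ log₂ N` shared gates and `2 N` references to them, `4 N` leaves are enough.
-/

namespace Pool.Agent.Results.MP_22d2c8_lc.FanoutThreshold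

open Pool.Agent.TH272.Nec Pool.Agent.TH272.Nec.Isa

/-- Every random circuit that computes `f` with error probability at most `1 / 3` on every input
has `a` references and shared gates, or `b` leaves (expected values). -/
def Needs {ι : Type} (f : (ι → Bool) → Bool) (a b : ℝ) : Prop :=
  ∀ (Ω : Type) [Fintype Ω] (μ : Ω → ℝ) (C : Ω → Circuit ι (fun _ => Bool)),
    Computes μ C (fun x => f x = true) →
      a ≤ mean μ (fun ω => (C ω).refs) + mean μ (fun ω => (C ω).shared) ∨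
      b ≤ mean μ (fun ω => (C ω).leaves)

/-- Some circuit with at most `k` shared gates, `r` references and `l` leaves computes `f`. -/
def Has {ι : Type} (f : (ι → Bool) → Bool) (k r l : ℝ) : Prop :=
  ∃ C : Circuit ι (fun _ => Bool), (∀ x, C.eval x = f x) ∧ C.shared ≤ k ∧ C.refs ≤ r ∧
    C.leaves ≤ l

theorem result (ℓ : ℕ) (hℓ : 7 ≤ ℓ) :
    ∃ q N : ℕ, N = q + 2 ^ q * ℓ + 2 ^ ℓ ∧ 2 ^ ℓ ≤ N ∧ N ≤ 3 * 2 ^ ℓ ∧
      Needs (isa (q := q) (ℓ := ℓ)) (N / 360) (N ^ 2 / (2160 * Nat.log 2 N)) ∧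
      Has (isa (q := q) (ℓ := ℓ)) (Nat.log 2 N) (2 * N) (4 * N) ∧
      Has (isa (q := q) (ℓ := ℓ)) 0 0 (4 * N ^ 2 / Nat.log 2 N) := by
  obtain ⟨q, hq⟩ : ∃ q, q = Nat.log 2 (2 ^ ℓ / ℓ) := ⟨_, rfl⟩
  have hpow : ℓ < 2 ^ ℓ := Nat.lt_two_pow_self
  have hne : 2 ^ ℓ / ℓ ≠ 0 := (Nat.div_pos hpow.le (by omega)).ne'
  have h1 : 2 ^ q * ℓ ≤ 2 ^ ℓ := by
    have := Nat.pow_log_le_self 2 hne
    rw [← hq] at this
    exact (Nat.mul_le_mul_right _ this).trans (Nat.div_mul_le_self _ _)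
  have h2 : 2 ^ ℓ < 2 * (2 ^ q * ℓ) := by
    have := Nat.lt_pow_succ_log_self (b := 2) (by norm_num) (2 ^ ℓ / ℓ)
    rw [← hq, Nat.div_lt_iff_lt_mul (by omega)] at this
    calc _ < 2 ^ (q + 1) * ℓ := this
      _ = _ := by ring
  have hqℓ : q ≤ ℓ := by
    by_contra hcon
    have : 2 ^ ℓ < 2 ^ q := Nat.pow_lt_pow_right (by norm_num) (by omega)
    nlinarith
  obtain ⟨N, hN⟩ : ∃ N, N = q + 2 ^ q * ℓ + 2 ^ ℓ := ⟨_, rfl⟩
  have h3 : 2 ^ ℓ ≤ N := by omega
  have h4 : N ≤ 3 * 2 ^ ℓ := by omega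
  have h5 : 3 * 2 ^ ℓ ≤ 2 * N := by omega
  have h6 : ℓ ≤ Nat.log 2 N := Nat.le_log_of_pow_le (by norm_num) h3
  have h7 : Nat.log 2 N ≤ ℓ + 1 := by
    have : Nat.log 2 N < ℓ + 2 := by
      refine Nat.log_lt_of_lt_pow (by omega) ?_
      have : 2 ^ (ℓ + 2) = 4 * 2 ^ ℓ := by ring
      omega
    omega
  -- real versions
  have r1 : (2 : ℝ) ^ q * ℓ ≤ 2 ^ ℓ := by exact_mod_cast h1
  have r2 : (2 : ℝ) ^ ℓ ≤ 2 * (2 ^ q * ℓ) := by exact_mod_cast h2.le
  have r4 : (N : ℝ) ≤ 3 * 2 ^ ℓ := by exact_mod_cast h4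
  have r5 : 3 * (2 : ℝ) ^ ℓ ≤ 2 * N := by exact_mod_cast h5
  have r6 : (ℓ : ℝ) ≤ Nat.log 2 N := by exact_mod_cast h6
  have r7 : (Nat.log 2 N : ℝ) ≤ ℓ + 1 := by exact_mod_cast h7
  have r8 : (7 : ℝ) ≤ ℓ := by exact_mod_cast hℓ
  have r9 : (0 : ℝ) < 2 ^ ℓ := by positivity
  have r10 : (0 : ℝ) < 2 ^ q := by positivity
  refine ⟨q, N, hN, h3, h4, ?_, ?_, ?_⟩
  · intro Ω _ μ C hC
    refine (lower hℓ μ C hC).imp (fun h => ?_) fun h => le_trans ?_ h
    · linarith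
    · rw [div_le_div_iff₀ (mul_pos (by norm_num) (by linarith)) (by norm_num), pow_add]
      calc (N : ℝ) ^ 2 * 120 ≤ (3 * 2 ^ ℓ) ^ 2 * 120 := by gcongr
        _ = 1080 * (2 ^ ℓ * 2 ^ ℓ) := by ring
        _ ≤ 1080 * ((2 * (2 ^ q * ℓ)) * 2 ^ ℓ) := by gcongr
        _ = 2 ^ q * 2 ^ ℓ * (2160 * ℓ) := by ring
        _ ≤ 2 ^ q * 2 ^ ℓ * (2160 * Nat.log 2 N) := by gcongr
  · obtain ⟨C, c1, c2, c3, c4⟩ := circuit q ℓ
    have : 3 * ℓ * 2 ^ q ≤ 3 * 2 ^ ℓ := by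
      calc _ = 3 * (2 ^ q * ℓ) := by ring
        _ ≤ _ := Nat.mul_le_mul_left _ h1
    have d1 : C.shared ≤ Nat.log 2 N := by omega
    have d2 : C.refs ≤ 2 * N := by omega
    have d3 : C.leaves ≤ 4 * N := by omega
    exact ⟨C, c1, by exact_mod_cast d1, by exact_mod_cast d2, by exact_mod_cast d3⟩
  · obtain ⟨C, c1, c2, c3, c4⟩ := formula q ℓ
    refine ⟨C, c1, by rw [c2]; norm_num, by rw [c3]; norm_num, ?_⟩
    have c5 : (C.leaves : ℝ) ≤ 7 * 2 ^ (q + ℓ) := by exact_mod_cast c4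
    refine c5.trans ?_
    rw [le_div_iff₀ (by linarith), pow_add]
    have a1 : (2 : ℝ) ^ q * Nat.log 2 N ≤ 8 / 7 * 2 ^ ℓ := by
      calc (2 : ℝ) ^ q * Nat.log 2 N ≤ 2 ^ q * (8 / 7 * ℓ) := by
            refine mul_le_mul_of_nonneg_left ?_ r10.le
            linarith
        _ = 8 / 7 * (2 ^ q * ℓ) := by ring
        _ ≤ _ := by linarith
    calc 7 * ((2 : ℝ) ^ q * 2 ^ ℓ) * Nat.log 2 N = 7 * 2 ^ ℓ * (2 ^ q * Nat.log 2 N) := by ring
      _ ≤ 7 * 2 ^ ℓ * (8 / 7 * 2 ^ ℓ) := by gcongr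
      _ = 8 * (2 ^ ℓ) ^ 2 := by ring
      _ ≤ 4 * (N : ℝ) ^ 2 := by nlinarith

end Pool.Agent.Results.MP_22d2c8_lc.FanoutThreshold
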