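import Pool.Agent.TH272.Nec.HamFin

set_option autoImplicit false

/-!
# Hamiltonicity: circuits with few shared gates

A circuit over the full binary basis (NAND gates are a special case) is written as a sequence of
formulas, one for each gate whose value is used more than once (a shared gate) and one for the
output; a leaf of a formula reads the input or refers to an earlier shared gate. The circuits are
random and have error probability at most `1 / 3` on every graph with `n` vertices.

* Either the expected number of shared gates and of references to them is at least
  `n ^ 2 / (2 * 10 ^ 6)`, that is, linear in the length of the input, or the expected number of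
  leaves is at least `n ^ 4 / (10 ^ 8 log₂ n)`, that is, nearly quadratic in the length of the input.
* The same dichotomy if the pairs of vertices are divided into blocks in any way and the leaves are
  arbitrary predicates of a block: the second bound is then `n ^ 2 / (2 * 10 ^ 6)` for each block
  which is a matching with at least `4 log₂ n` edges.
* Formulas over the full binary basis have at least `n ^ 4 / (10 ^ 8 log₂ n)` leaves.

Proof. For a string `z` over the pairs `(u, v)` of words of length `ℓ = log₂ n - 6` there are graphs
with `4 ℓ` disjoint further pairs, to be joined or not, which name an address `(u, v)`, such that the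
graph is Hamiltonian if and only if `z (u, v) = 1`. A row for each bit and each value of this bit is
passed from the left to the right, or back if this value is the right one; on the way to the right it
picks up, for every word that follows this bit, one vertex that has this value, and in the end the
vertices `u` and `v` only are left, which have to be joined.
-/

namespace Pool.Agent.Results.MP_6b3410_lc.FanoutThreshold

open Pool.Agent.TH272.Nec

theorem result (n : ℕ) (hn : 2 ^ 11 ≤ n) :
    (∀ (Ω : Type) [Fintype Ω] (μ : Ω → ℝ) (C : Ω → Circuit (Sym2 (Fin n)) (fun _ => Bool)),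
      Computes μ C (fun x => (SimpleGraph.fromEdgeSet {e | x e = true}).IsHamiltonian) →
        (n : ℝ) ^ 2 / (2 * 10 ^ 6) ≤
          mean μ (fun ω => (C ω).refs) + mean μ (fun ω => (C ω).shared) ∨
        (n : ℝ) ^ 4 / (10 ^ 8 * Nat.log 2 n) ≤ mean μ (fun ω => (C ω).leaves)) ∧
    (∀ (κ : Type) [DecidableEq κ] (block : Sym2 (Fin n) → κ) (B : Finset κ),
      (∀ i ∈ B, IsMatchingBlock block (4 * Nat.log 2 n) i) →
      ∀ (Ω : Type) [Fintype Ω] (μ : Ω → ℝ) (C : Ω → Circuit κ (Item block)),
      Computes μ C (fun x => (graph block x).IsHamiltonian) →
        (n : ℝ) ^ 2 / (2 * 10 ^ 6) ≤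
          mean μ (fun ω => (C ω).refs) + mean μ (fun ω => (C ω).shared) ∨
        (n : ℝ) ^ 2 / (2 * 10 ^ 6) * B.card ≤ mean μ (fun ω => (C ω).leaves)) ∧
    (∀ F : Fm (Sym2 (Fin n)) (fun _ => Bool) 0,
      (∀ x, F.eval x Fin.elim0 = true ↔
        (SimpleGraph.fromEdgeSet {e | x e = true}).IsHamiltonian) →
        (n : ℝ) ^ 4 / (10 ^ 8 * Nat.log 2 n) ≤ F.leaves) :=
  ⟨fun _ _ μ C hC => Ham.single hn μ C hC, fun _ _ block B hB _ _ μ C hC =>
    Ham.blocks hn block B hB μ C hC, fun F hF => Ham.formula hn F hF⟩

end Pool.Agent.Results.MP_6b3410_lc.FanoutThreshold
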